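import Pool.Agent.K7.H77.WG.Ind

/-!
# Waring's problem for almost all coefficients with `k + log₂ k + 2` variables

For Lebesgue-almost all `(α_1, ..., α_s)` in `(0, ∞)^s`, `s = k + ⌊log₂ k⌋ + 2`, every sufficiently
large natural number is the integral part of `α_1 x_1^k + ... + α_s x_s^k` with positive integers
`x_1, ..., x_s`.  More generally the `k`-th powers may be replaced by arbitrary sequences `b_i` with
`y^{c_i} ≤ b_i(y) ≤ (y+1)^{c_i}`, and the last `j` of them by arbitrary sequences without large gaps,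
for example by powers of two.

Outline.  For numbers `x` in a window at the scale `X` write the number of solutions of
`|x - ∑ α_i b_i(y_i)| < ε` (with weights) as a sum over the subsets of the variables of terms in which
the sums over some of the variables are replaced by integrals and those over the others by the
difference `D_i` between sum and integral.  All terms but the one with all the differences are under
control for all `α`.  The last one is `D_1 D_2 ⋯ D_s` of a bump function.  If `α_i` is averaged over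
`[1, 2]`, the square of the norm of `D_i f` in `L²(ℝ)` is `X^{2-1/c_i+o(1)}` times that of `f`, as the
translates by `α_i b_i(y)` and `α_i b_i(z)` are nearly orthogonal for most `α_i`.  Hence for almost all
`α` the measure of the exceptional set in `[X, 2X]` is at most `X^{2 - ∑ 1/c_i + o(1)}`.

One more variable: `x` is exceptional only if `x - α d(y)` is exceptional (for the variables before)
for two values of `y` with `d(y') - d(y) ≫ X`.  As `∫ |E ∩ (E + α h)| dα ≤ |E|²/h`, the exponent of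
the saving is doubled, for almost all `α`.  When it is more than one there is no exception.
-/

set_option autoImplicit false

namespace Pool.Agent.Results.MP_570bef_nt.AlmostAllCoefficients

open MeasureTheory Filter

/-- `y ^ c ≤ b y ≤ (y + 1) ^ c` for all `y` -/
def PowerLike (c : ℝ) (b : ℕ → ℝ) : Prop :=
  ∀ y : ℕ, (y : ℝ) ^ c ≤ b y ∧ b y ≤ ((y : ℝ) + 1) ^ c

/-- for some constant `C` the sequence has a term between `X` and `C X` for every large `X` -/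
def NoGaps (d : ℕ → ℝ) : Prop :=
  ∃ C : ℝ, ∀ᶠ X : ℝ in atTop, ∃ y, X ≤ d y ∧ d y ≤ C * X

theorem general (s j : ℕ) (c : Fin s → ℝ) (b : Fin s → ℕ → ℝ) (d : Fin j → ℕ → ℝ) (η : ℝ)
    (hc : ∀ i, 1 ≤ c i) (hb : ∀ i, PowerLike (c i) (b i)) (hd : ∀ i, NoGaps (d i)) (hη : 0 ≤ η)
    (hs : 1 + (2 ^ j + 1) * η < 2 ^ j * ((∑ i, 1 / c i) - 1)) :
    ∀ᵐ α : Fin (s + j) → ℝ, (∀ i, 0 < α i) → ∀ᶠ t : ℝ in atTop,
      ∃ x : Fin (s + j) → ℕ, |∑ i, α i * Fin.append b d i (x i) - t| < t ^ (-η) := by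
  refine Pool.Agent.K7.H77.WG.all_large2 (c := c) hc j (Fin.append b d) ?_ ?_ hη hs
  · intro i y
    rw [Fin.append_left]
    exact hb i y
  · intro i
    obtain ⟨C, hC⟩ := hd i
    refine ⟨C, ?_⟩
    filter_upwards [hC] with X hX
    rw [Fin.append_right]
    exact hX

theorem powers (k s : ℕ) (hk : 1 ≤ k) (hs : k + Nat.log 2 k + 2 ≤ s) :
    ∀ᵐ α : Fin s → ℝ, (∀ i, 0 < α i) → ∀ᶠ n : ℕ in atTop,
      ∃ x : Fin s → ℕ, (∀ i, 0 < x i) ∧ ⌊∑ i, α i * (x i : ℝ) ^ k⌋ = (n : ℤ) := by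
  obtain ⟨j, rfl⟩ : ∃ j, s = (k + 1) + j := ⟨s - (k + 1), by omega⟩
  have hj : Nat.log 2 k + 1 ≤ j := by omega
  have hk0 : (0:ℝ) < k := by exact_mod_cast hk
  have h2 : (k:ℝ) < 2 ^ j := by
    have h3 : k < 2 ^ j := by
      calc k < 2 ^ (Nat.log 2 k + 1) := Nat.lt_pow_succ_log_self (by norm_num) k
        _ ≤ 2 ^ j := Nat.pow_le_pow_right (by norm_num) hj
    exact_mod_cast h3
  set g : ℝ := (2 ^ j / k - 1) / (2 * (2 ^ j + 1)) with hg
  have hg0 : 0 < g := by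
    rw [hg]
    have : 1 < (2:ℝ) ^ j / k := by rw [one_lt_div hk0]; exact h2
    have : 0 < (2:ℝ) ^ j / k - 1 := by linarith
    positivity
  have hsum : (∑ _i : Fin (k+1), 1 / (k:ℝ)) = 1 + 1 / k := by
    simp
    field_simp
  have hcond : 1 + (2 ^ j + 1) * g < 2 ^ j * ((∑ _i : Fin (k+1), 1 / (k:ℝ)) - 1) := by
    rw [hsum]
    have e : (2 ^ j + 1) * g = (2 ^ j / k - 1) / 2 := by rw [hg]; field_simp
    have e2 : (2:ℝ) ^ j * (1 + 1 / k - 1) = 2 ^ j / k := by ring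
    rw [e, e2]
    have : 1 < (2:ℝ) ^ j / k := by rw [one_lt_div hk0]; exact h2
    linarith
  set b : Fin (k + 1 + j) → ℕ → ℝ := fun _ y => ((y:ℝ) + 1) ^ (k:ℝ) with hb
  have hk1 : (1:ℝ) ≤ k := by exact_mod_cast hk
  have h := Pool.Agent.K7.H77.WG.all_large2 (s := k + 1) (c := fun _ => (k:ℝ)) (fun _ => hk1) j b
    (fun i y => ⟨by
      show (y:ℝ) ^ (k:ℝ) ≤ ((y:ℝ) + 1) ^ (k:ℝ)
      gcongr; linarith, le_rfl⟩)
    (fun i => ⟨2 ^ (k:ℝ), by
      filter_upwards [eventually_ge_atTop 1] with X hX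
      -- the term with index `⌈X^{1/k}⌉ - 1`
      have hX0 : 0 < X := by linarith
      have hr1 : 1 ≤ X ^ (1 / (k:ℝ)) := Real.one_le_rpow hX (by positivity)
      have hc1 : X ^ (1 / (k:ℝ)) ≤ (⌈X ^ (1 / (k:ℝ))⌉₊ : ℝ) := Nat.le_ceil _
      have hc2 : (⌈X ^ (1 / (k:ℝ))⌉₊ : ℝ) < X ^ (1 / (k:ℝ)) + 1 := Nat.ceil_lt_add_one (by positivity)
      have hc3 : 1 ≤ ⌈X ^ (1 / (k:ℝ))⌉₊ := by
        have : (0:ℝ) < (⌈X ^ (1 / (k:ℝ))⌉₊ : ℝ) := by linarith
        exact_mod_cast this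
      refine ⟨⌈X ^ (1 / (k:ℝ))⌉₊ - 1, ?_⟩
      have e : ((⌈X ^ (1 / (k:ℝ))⌉₊ - 1 : ℕ) : ℝ) + 1 = (⌈X ^ (1 / (k:ℝ))⌉₊ : ℝ) := by
        rw [Nat.cast_sub hc3]; simp
      have e2 : (X ^ (1 / (k:ℝ))) ^ (k:ℝ) = X := by
        rw [← Real.rpow_mul hX0.le, one_div_mul_cancel hk0.ne', Real.rpow_one]
      show X ≤ (((⌈X ^ (1 / (k:ℝ))⌉₊ - 1 : ℕ) : ℝ) + 1) ^ (k:ℝ) ∧
        (((⌈X ^ (1 / (k:ℝ))⌉₊ - 1 : ℕ) : ℝ) + 1) ^ (k:ℝ) ≤ 2 ^ (k:ℝ) * X
      rw [e]
      constructor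
      · calc X = (X ^ (1 / (k:ℝ))) ^ (k:ℝ) := e2.symm
          _ ≤ _ := Real.rpow_le_rpow (by positivity) hc1 hk0.le
      · calc (⌈X ^ (1 / (k:ℝ))⌉₊ : ℝ) ^ (k:ℝ) ≤ (2 * X ^ (1 / (k:ℝ))) ^ (k:ℝ) :=
              Real.rpow_le_rpow (by positivity) (by linarith) hk0.le
          _ = 2 ^ (k:ℝ) * X := by rw [Real.mul_rpow (by norm_num) (by positivity), e2]⟩)
    hg0.le hcond
  filter_upwards [h] with α hα hpos
  have h3 := hα hpos
  have hsh : Tendsto (fun n : ℕ => (n:ℝ) + 1 / 2) atTop atTop :=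
    tendsto_atTop_add_const_right _ _ tendsto_natCast_atTop_atTop
  have hg2 : ∀ᶠ t : ℝ in atTop, (2:ℝ) ≤ t ^ g := (tendsto_rpow_atTop hg0).eventually_ge_atTop 2
  filter_upwards [hsh.eventually h3, hsh.eventually hg2] with n hn hn2
  obtain ⟨x, hx⟩ := hn
  refine ⟨fun i => x i + 1, fun i => Nat.succ_pos _, ?_⟩
  have hn0 : (0:ℝ) < (n:ℝ) + 1 / 2 := by positivity
  have hw : ((n:ℝ) + 1 / 2) ^ (-g) ≤ 1 / 2 := by
    have h4 := inv_anti₀ (by norm_num) hn2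
    rw [Real.rpow_neg hn0.le]
    norm_num at h4 ⊢
    exact h4
  have e : ∑ i, α i * b i (x i) = ∑ i, α i * ((x i + 1 : ℕ) : ℝ) ^ k := by
    apply Finset.sum_congr rfl
    intro i _
    simp only [hb]
    rw [Real.rpow_natCast]
    push_cast
    rfl
  rw [e, abs_lt] at hx
  rw [Int.floor_eq_iff]
  push_cast at hx ⊢
  constructor <;> linarith [hx.1, hx.2]

/-- Waring's problem for almost all positive coefficients.

(1) If `s ≥ k + ⌊log₂ k⌋ + 2` then for almost all `α ∈ (0, ∞)^s` every large natural number is the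
integral part of `∑ α_i x_i^k` with positive integers `x_i`.

(2) The same for general sequences, with small windows. -/
theorem result :
    (∀ k s : ℕ, 1 ≤ k → k + Nat.log 2 k + 2 ≤ s → ∀ᵐ α : Fin s → ℝ, (∀ i, 0 < α i) →
      ∀ᶠ n : ℕ in atTop, ∃ x : Fin s → ℕ,
        (∀ i, 0 < x i) ∧ ⌊∑ i, α i * (x i : ℝ) ^ k⌋ = (n : ℤ)) ∧
    (∀ (s j : ℕ) (c : Fin s → ℝ) (b : Fin s → ℕ → ℝ) (d : Fin j → ℕ → ℝ) (η : ℝ),
      (∀ i, 1 ≤ c i) → (∀ i, PowerLike (c i) (b i)) → (∀ i, NoGaps (d i)) → 0 ≤ η →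
      1 + (2 ^ j + 1) * η < 2 ^ j * ((∑ i, 1 / c i) - 1) →
      ∀ᵐ α : Fin (s + j) → ℝ, (∀ i, 0 < α i) → ∀ᶠ t : ℝ in atTop,
        ∃ x : Fin (s + j) → ℕ, |∑ i, α i * Fin.append b d i (x i) - t| < t ^ (-η)) :=
  ⟨powers, general⟩

end Pool.Agent.Results.MP_570bef_nt.AlmostAllCoefficients
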