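import Pool.Agent.K7.H60.WE.Gl

set_option autoImplicit false

/-!
# A linear bound in Waring's problem with a real exponent, for almost all exponents

Waring's problem with a real exponent `c > 1` (Segal) asks for the number of terms with which all large
natural numbers are sums of numbers `⌊x ^ c⌋`, `x = 0, 1, 2, …`; for a natural number `c = k` this is
Waring's problem.

**Theorem.** For almost all real `c > 1` (Lebesgue measure), for every natural number `s ≥ 3 c + 3`, all
sufficiently large natural numbers are sums of `s` numbers `⌊x ^ c⌋`.

There is one random parameter, the exponent, which is common to all variables. For the exponents `c = k`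
(a null set, not reached here) a linear bound is the question of the problem; known are `(1 + o(1)) k log k`
terms.

Sketch of the proof. Diminishing ranges with two interleaved sequences: `x_j ∈ [X_j, 2 X_j)`,
`X_j = X ^ (ρ ^ j)` with `ρ` slightly smaller than `√(1 - 1/c)`, for `j < m`; the classical choice is
`ρ = 1 - 1/c`, which needs `c log c` variables to bring the product of the ranges near `X ^ c`, while here
`2 c log 2` variables suffice. The sums of the `x_j ^ c` are no longer distinct automatically, but they are
well distributed on average over the exponent: if `x ≠ y`, the function
`f(c) = ∑ (x_j ^ c - y_j ^ c)` has no double zeros, not even approximately. For when `|f(c)| < m`, the first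
two differences `Δ_j = x_j ^ c - y_j ^ c` which occur nearly cancel, and they are multiplied by
`log X_j` and `log X_{j+1}` in the derivative `f'(c)`, which therefore is at least `|Δ_j| / 2`. So the number of
the pairs `(x, y)` with the same sum is on average over `c`, and by the Borel-Cantelli lemma for almost all
`c`, not larger than expected up to `X ^ ε`. Two such systems of `m` variables and one more variable, for which
van der Corput's method gives a power saving on the minor arcs, suffice for all large natural numbers. The
integral parts are dealt with by a Fejér kernel.
-/

namespace Pool.Agent.Results.MP_570bef_nt.AlmostAllExponents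

open MeasureTheory

/-- For almost all real `c > 1` and every natural number `s ≥ 3 c + 3`, every sufficiently large natural
number is a sum of `s` numbers `⌊x ^ c⌋` with natural numbers `x` (zero allowed). -/
theorem result : ∀ᵐ c : ℝ, 1 < c → ∀ s : ℕ, 3 * c + 3 ≤ s → ∃ N : ℕ, ∀ n : ℕ, N ≤ n →
    ∃ x : Fin s → ℕ, ∑ i, ⌊(x i : ℝ) ^ c⌋₊ = n :=
  Pool.Agent.K7.H60.WE.main

end Pool.Agent.Results.MP_570bef_nt.AlmostAllExponents
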