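import Mathlib
import Pool.Agent.K7.H55.MS.Main

/-!
# Sums of `100 k` terms, almost all of them `k`-th powers, the few others shifted `k`-th powers

**Theorem.** Let `k ≥ 2`, `u ≥ 0` and `s ≥ 1` with `2 (1 - 1 / k) ^ u ≤ 1` and `2 k (1 - 1 / k) ^ u < s`. For almost all
`ξ` in `[0, 1] ^ s` every sufficiently large natural number is a sum of `2 u` many `k`-th powers of natural numbers and
the integral part of `(y_1 + ξ_1) ^ k + ... + (y_s + ξ_s) ^ k` for some natural numbers `y_1, ..., y_s`.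

For `u = 49 k` this gives sums of at most `100 k` terms in which at most `1 + k / 10 ^ 20` of the terms are shifted
(by real numbers fixed in advance, independent of the number represented), and all the others are `k`-th powers.

Sketch of the proof. Let `X = 3 ^ J`. By induction on `u` (diminishing ranges) there is a set `A` of natural numbers
`≤ (X / 9) ^ k`, all of them sums of `u` many `k`-th powers, with at least `c X ^ k / D` elements, `D = X ^ (k λ)`,
`λ = (1 - 1 / k) ^ u`, and with at most `C (1 + h / D)` elements in each interval of length `h`. Let `T` be its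
exponential sum. The number of solutions of `a + b + (y_1 + ξ_1) ^ k + ... + (y_s + ξ_s) ^ k ∈ (n, n + 1)`, `a, b ∈ A`,
with the weight `max 0 (1 - 2 |.|)`, is the integral of `T ^ 2` times the product of the sums `S (α, ξ_i)` over
`α (y + ξ_i) ^ k`, `0 ≤ y < X`, against Fejér's kernel. The product differs from its mean value over the shifts in mean by
at most `X ^ (s - 1 / 4 + ε)`, and by at most `X ^ ε (X ^ (1 / 2) + |α| ^ (-1 / k)) ^ s` (a second moment over the shift).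
The mean square of `T` against Fejér's kernel is the number of elements of `A` (the kernel vanishes at nonzero
integers), and that of `T` over `|α| ≤ 1 / D` is at most `C |A| / D`. So the mean over the shifts of the error,
uniformly in `n`, is by a power of `X` smaller than the main term, which is at least `c |A| ^ 2 X ^ (s - k)`. The
Borel-Cantelli lemma finishes the proof.
-/

set_option autoImplicit false

namespace Pool.Agent.Results.MP_570bef_nt.FewShiftedPowers

open MeasureTheory Filter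

/-- `n` is the sum of `h` many `k`-th powers of natural numbers and the integral part of
`(y_1 + ξ_1) ^ k + ... + (y_s + ξ_s) ^ k` for some natural numbers `y_1, ..., y_s`. -/
def Represented (k h : ℕ) {s : ℕ} (ξ : Fin s → ℝ) (n : ℕ) : Prop :=
  ∃ (x : Fin h → ℕ) (y : Fin s → ℕ), n = ∑ j, x j ^ k + ⌊∑ i, ((y i : ℝ) + ξ i) ^ k⌋₊

/-- `k`-th powers and few shifted `k`-th powers: the general form. -/
theorem general (k : ℕ) (hk : 2 ≤ k) (u s : ℕ) (hs : 1 ≤ s) (h1 : 2 * (1 - 1 / (k : ℝ)) ^ u ≤ 1)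
    (h2 : 2 * k * (1 - 1 / (k : ℝ)) ^ u < s) :
    ∀ᵐ ξ : Fin s → ℝ, (∀ i, ξ i ∈ Set.Icc (0 : ℝ) 1) → ∃ n₀ : ℕ, ∀ n : ℕ, n₀ ≤ n → Represented k (2 * u) ξ n := by
  have g1 := K7.H55.MS.main hk hs h1 h2
  have g2 : K7.H74.WS.cube s = volume.restrict (Set.univ.pi fun _ : Fin s => Set.Ioc (0 : ℝ) 1) := by
    unfold K7.H74.WS.cube
    rw [volume_pi, Measure.restrict_pi_pi]
  rw [g2, ae_restrict_iff' (MeasurableSet.univ_pi fun _ => measurableSet_Ioc)] at g1
  have h3 : ∀ᵐ ξ : Fin s → ℝ, ∀ i, ξ i ≠ 0 := by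
    rw [ae_all_iff]
    intro i
    have h4 : ∀ᵐ x : ℝ, x ≠ 0 := compl_mem_ae_iff.2 (measure_singleton (0 : ℝ))
    rw [volume_pi]
    exact (Measure.quasiMeasurePreserving_eval (fun _ : Fin s => (volume : Measure ℝ)) i).ae h4
  filter_upwards [g1, h3] with ξ h4 h5 h6
  obtain ⟨n0, hn0⟩ := h4 (fun i _ => ⟨lt_of_le_of_ne (h6 i).1 (h5 i).symm, (h6 i).2⟩) (fun i => (h6 i).1)
  refine ⟨n0, fun n hn => ?_⟩
  obtain ⟨x, y, z, h⟩ := hn0 n hn
  have e : 2 * u = u + u := two_mul u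
  refine ⟨fun j => Fin.append x y (Fin.cast e j), z, ?_⟩
  have e2 : ∑ j : Fin (2 * u), Fin.append x y (Fin.cast e j) ^ k = ∑ j : Fin (u + u), Fin.append x y j ^ k :=
    Fintype.sum_equiv (finCongr e) _ _ fun j => rfl
  rw [e2, Fin.sum_univ_add]
  simp only [Fin.append_left, Fin.append_right]
  exact h

/-- **Sums of `100 k` terms, nearly all of them `k`-th powers.** Let `k ≥ 2`. (1) If `s ≥ 1`, `2 (1 - 1 / k) ^ u ≤ 1` and
`2 k (1 - 1 / k) ^ u < s`, then for almost all `ξ` in `[0, 1] ^ s` every sufficiently large natural number is a sum of `2 u`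
many `k`-th powers and the integral part of a sum of `s` many `k`-th powers shifted by `ξ_1, ..., ξ_s`. (2) For some `s`
with `1 ≤ s ≤ 1 + k / 10 ^ 20`, for almost all `ξ` in `[0, 1] ^ s`, every sufficiently large natural number is a sum of
`98 k` many `k`-th powers and the integral part of a sum of `s` many `k`-th powers shifted by `ξ_1, ..., ξ_s`; here
`98 k + s ≤ 100 k`. -/
theorem result (k : ℕ) (hk : 2 ≤ k) :
    (∀ u s : ℕ, 1 ≤ s → 2 * (1 - 1 / (k : ℝ)) ^ u ≤ 1 → 2 * k * (1 - 1 / (k : ℝ)) ^ u < s →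
      ∀ᵐ ξ : Fin s → ℝ, (∀ i, ξ i ∈ Set.Icc (0 : ℝ) 1) → ∃ n₀ : ℕ, ∀ n : ℕ, n₀ ≤ n → Represented k (2 * u) ξ n) ∧
    ∃ s : ℕ, 1 ≤ s ∧ (s : ℝ) ≤ 1 + k / 10 ^ 20 ∧ 98 * k + s ≤ 100 * k ∧
      ∀ᵐ ξ : Fin s → ℝ, (∀ i, ξ i ∈ Set.Icc (0 : ℝ) 1) → ∃ n₀ : ℕ, ∀ n : ℕ, n₀ ≤ n → Represented k (98 * k) ξ n := by
  refine ⟨fun u s hs h1 h2 => general k hk u s hs h1 h2, ?_⟩
  have hk0 : (0 : ℝ) < k := by exact_mod_cast (by omega : 0 < k)
  have hk2 : (2 : ℝ) ≤ k := by exact_mod_cast hk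
  -- the size of `(1 - 1 / k) ^ (49 k)`
  have hexp : (1 - 1 / (k : ℝ)) ^ (49 * k) ≤ 1 / (4 * 10 ^ 20) := by
    have h0 : 0 ≤ 1 - 1 / (k : ℝ) := by
      rw [sub_nonneg, div_le_one hk0]; linarith
    have h3 : 1 - 1 / (k : ℝ) ≤ Real.exp (-(1 / k)) := by
      have := Real.add_one_le_exp (-(1 / (k : ℝ)))
      linarith
    have h4 : (1 - 1 / (k : ℝ)) ^ (49 * k) ≤ Real.exp (-(1 / k)) ^ (49 * k) := pow_le_pow_left₀ h0 h3 _
    have h5 : Real.exp (-(1 / (k : ℝ))) ^ (49 * k) = (Real.exp 1 ^ 49)⁻¹ := by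
      rw [← Real.exp_nat_mul, ← Real.exp_nat_mul, ← Real.exp_neg]
      congr 1
      push_cast
      field_simp
    have h6 : (4 * 10 ^ 20 : ℝ) ≤ Real.exp 1 ^ 49 := by
      have h7 : (2.7 : ℝ) ≤ Real.exp 1 := by
        have := Real.exp_one_gt_d9
        linarith
      calc (4 * 10 ^ 20 : ℝ) ≤ 2.7 ^ 49 := by norm_num
        _ ≤ _ := pow_le_pow_left₀ (by norm_num) h7 _
    rw [h5] at h4
    refine h4.trans ?_
    rw [one_div]
    exact inv_anti₀ (by norm_num) h6
  set s : ℕ := ⌊(k : ℝ) / 10 ^ 20⌋₊ + 1 with hs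
  have hs1 : ((⌊(k : ℝ) / 10 ^ 20⌋₊ : ℕ) : ℝ) ≤ k / 10 ^ 20 := Nat.floor_le (by positivity)
  have hs2 : (k : ℝ) / 10 ^ 20 < s := by
    rw [hs]
    push_cast
    exact Nat.lt_floor_add_one _
  refine ⟨s, by omega, ?_, ?_, ?_⟩
  · rw [hs]
    push_cast
    linarith
  · have h3 : ((⌊(k : ℝ) / 10 ^ 20⌋₊ : ℕ) : ℝ) ≤ k := by
      refine hs1.trans ?_
      rw [div_le_iff₀ (by norm_num)]
      nlinarith
    have h4 : ⌊(k : ℝ) / 10 ^ 20⌋₊ ≤ k := by exact_mod_cast h3
    omega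
  · have h3 := general k hk (49 * k) s (by omega) (by
      have : (1 : ℝ) / (4 * 10 ^ 20) ≤ 1 / 2 := by norm_num
      linarith) (by
      refine lt_of_le_of_lt ?_ hs2
      calc 2 * (k : ℝ) * (1 - 1 / (k : ℝ)) ^ (49 * k) ≤ 2 * k * (1 / (4 * 10 ^ 20)) := by gcongr
        _ ≤ k / 10 ^ 20 := by
          rw [mul_one_div, div_le_div_iff₀ (by norm_num) (by norm_num)]
          nlinarith)
    have e : 98 * k = 2 * (49 * k) := by ring
    rw [e]
    exact h3

end Pool.Agent.Results.MP_570bef_nt.FewShiftedPowers
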