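import Mathlib
import Pool.Agent.K7.H74.WL.Fn
import Pool.Agent.K7.H74.AF.All

/-!
# Sums of more than `k` shifted `k`-th powers, for almost all shifts: the asymptotic formula

For `ξ = (ξ_1, ..., ξ_s)` in `[0, 1] ^ s` we consider the integral parts of the numbers
`(x_1 + ξ_1) ^ k + ... + (x_s + ξ_s) ^ k`, where `x_1, ..., x_s` are natural numbers. For `ξ = 0` these are the
sums of `s` many `k`-th powers. The expected number of representations of `n` is
`E (n) = Γ (1 + 1 / k) ^ s / Γ (s / k) n ^ (s / k - 1)`.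

**Theorem.** Let `k ≥ 3` and `s ≥ k + 1`. For almost all `ξ` in `[0, 1] ^ s` the following holds.

* For all `ε, δ > 0`, at most `O (N ^ max (0, 1 - 2 ^ (s - k - 1) / k + δ))` natural numbers `n ≤ N` have a number of
  representations which differs from `E (n)` by more than `ε E (n)`.
* If `2 ^ (s - k - 1) > k`, that is, `s ≥ k + [log_2 k] + 2`, then the asymptotic formula holds for all `n`: the number
  of representations divided by `E (n)` tends to `1` as `n` tends to infinity.

Sketch of the proof. *Few representations.* Let `S (α, t)` be the exponential sum over `α (x + t) ^ k`, `0 ≤ x < X`, and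
`M (α)` its mean value over `t` in `[0, 1]`. The mean value of `|S|²` is `O (X log X)` if `α` is not small, by the first
derivative test for the integrals of `e (α ((x + D + t) ^ k - (x + t) ^ k))`. The number of solutions, smoothed on a
scale `h`, is the integral of Fejér's kernel against the product of the `S (α, ξ_i)`; large and small frequencies are
treated differently. For `s = k + 1` the real numbers `t` in `[N, 2 N]` with few solutions form a set of measure
`O (N ^ (1 - 1 / k + δ))`. One more random shift `β` squares the density of this set `E`: if `t` is bad for `s + 1`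
variables, then a positive proportion of the numbers `t - (y + β) ^ k`, `y ≤ N ^ (1 / k)`, is in `E` (all the others
contribute the expected number of solutions), and on average over `β` a positive proportion of the pairs `(y, y')` has
`t - (y + β) ^ k` and `t - (y' + β) ^ k` in `E` for a set of `t` of measure `O (|E|² / N)` only.

*Many representations.* The variables are put into blocks `{0}`, `[1, 3)`, `[3, 9)`, ..., and in every box of blocks they
are ordered by size, the largest block last; `Z = 3 ^ J` is its size. (1) All levels: for `t` variables the set of the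
real numbers with at least `λ` solutions in the box has measure `O (Z ^ (k + δ) (Z ^ (t - k) / λ) ^ (2 ^ i))` for all
`λ ≥ Z ^ (i - 1 + δ)` (for `i = 0`, the first moment, for all `λ`). Induction on `t`: if there are `λ'` solutions with
`t + 1` variables, then for some dyadic `λ` at least `K = λ' / (λ log Z)` of the `τ - (x + β) ^ k` have at least `λ`
solutions; count pairs if `K > 1`, points if `K ≤ 1`. (2) The excess: for `t = k + j` the number of solutions in a box
exceeds the expected number by `λ ≥ Z ^ (j - δ)` only on a set of measure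
`O (Z ^ (k - 2 ^ (j - 1) + δ') (Z ^ j / λ) ^ (2 ^ j))`. For `j = 1` this is the variance: it is the integral over `α`
of Fejér's kernel times the difference of the products of the mean squares of the sums over the blocks and of the squares
of their means. The induction on `j` again counts pairs if `K > 1`, and uses (1) for `K ≤ 1`. If `2 ^ (j - 1) > k`, then
the measure is less than `1` and no integer is exceptional.
-/

set_option autoImplicit false

namespace Pool.Agent.Results.MP_570bef_nt.SlimExceptionalSets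

open MeasureTheory Filter

/-- The integral part of `(x_1 + ξ_1) ^ k + ... + (x_s + ξ_s) ^ k`. -/
noncomputable def sumOfPowers (k : ℕ) {s : ℕ} (ξ : Fin s → ℝ) (x : Fin s → ℕ) : ℕ := ⌊∑ i, ((x i : ℝ) + ξ i) ^ k⌋₊

/-- The number of `x` in `ℕ ^ s` for which `n` is the integral part of
`(x_1 + ξ_1) ^ k + ... + (x_s + ξ_s) ^ k`. -/
noncomputable def representations (k : ℕ) {s : ℕ} (ξ : Fin s → ℝ) (n : ℕ) : ℕ :=
  Nat.card {x : Fin s → ℕ // sumOfPowers k ξ x = n}

/-- The expected number `Γ (1 + 1 / k) ^ s / Γ (s / k) n ^ (s / k - 1)` of representations. -/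
noncomputable def expected (k s n : ℕ) : ℝ :=
  Real.Gamma (1 + 1 / (k : ℝ)) ^ s / Real.Gamma ((s : ℝ) / k) * (n : ℝ) ^ ((s : ℝ) / k - 1)

/-- The number of `n ≤ N` for which the number of representations differs from the expected number by
more than `ε` times the latter. -/
noncomputable def exceptions (k : ℕ) {s : ℕ} (ξ : Fin s → ℝ) (ε : ℝ) (N : ℕ) : ℕ :=
  Nat.card {n : ℕ // n ≤ N ∧ ε * expected k s n < |(representations k ξ n : ℝ) - expected k s n|}

theorem expected_eq {k s : ℕ} (hk : 1 ≤ k) (hs : 1 ≤ s) (n : ℕ) :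
    Pool.Agent.K7.H74.WS.Vs k s * ((s : ℝ) / k) * (n : ℝ) ^ ((s : ℝ) / k - 1) = expected k s n := by
  rw [Pool.Agent.K7.H74.WS.Vs_const hk hs]
  rfl

/-- the lower bound -/
theorem lower {k s : ℕ} (hk : 3 ≤ k) (hs : k + 1 ≤ s) :
    ∀ᵐ ξ ∂(Pool.Agent.K7.H74.WS.cube s), ∀ ε : ℝ, 0 < ε → ∀ δ : ℝ, 0 < δ → ∃ C : ℝ, 0 ≤ C ∧ ∀ N : ℕ, 1 ≤ N →
        (Nat.card {n : ℕ // n ≤ N ∧ (representations k ξ n : ℝ) < (1 - ε) * expected k s n} : ℝ) ≤
          C * (N : ℝ) ^ max 0 (1 - 2 ^ (s - k - 1) / (k : ℝ) + δ) := by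
  classical
  obtain ⟨j, rfl⟩ : ∃ j, s = k + 1 + j := ⟨s - (k + 1), by omega⟩
  have hj : k + 1 + j - k - 1 = j := by omega
  rw [hj]
  have hk1 : 1 ≤ k := by omega
  filter_upwards [Pool.Agent.K7.H74.WL.few_of_PP (by omega : 2 ≤ k) (by omega : k ≤ k + 1 + j)
    (Pool.Agent.K7.H74.WL.PP_all hk j)] with ξ hξ ε hε δ hδ
  obtain ⟨C, hC0, hC⟩ := hξ ε hε δ hδ
  refine ⟨C, hC0, fun N hN => le_trans (le_of_eq ?_) (hC N hN)⟩
  congr 1
  apply Nat.subtype_card
  intro n
  rw [Finset.mem_filter, Finset.mem_range, Nat.lt_succ_iff]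
  have e1 : Pool.Agent.K7.H74.WL.cs k (k + 1 + j) * (n : ℝ) ^ (((k + 1 + j : ℕ) : ℝ) / (k : ℝ) - 1) =
      expected k (k + 1 + j) n := by
    unfold Pool.Agent.K7.H74.WL.cs
    rw [Pool.Agent.K7.H74.WS.Vs_const hk1 (by omega)]
    rfl
  rw [e1]
  exact Iff.rfl

/-- the upper bound -/
theorem upper {k s : ℕ} (hk : 3 ≤ k) (hs : k + 1 ≤ s) :
    ∀ᵐ ξ ∂(Pool.Agent.K7.H74.WS.cube s), ∀ ε : ℝ, 0 < ε → ∀ δ : ℝ, 0 < δ → ∃ C : ℝ, 0 ≤ C ∧ ∀ N : ℕ, 1 ≤ N →
        (Nat.card {n : ℕ // n ≤ N ∧ (1 + ε) * expected k s n < (representations k ξ n : ℝ)} : ℝ) ≤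
          C * (N : ℝ) ^ max 0 (1 - 2 ^ (s - k - 1) / (k : ℝ) + δ) := by
  obtain ⟨j, rfl⟩ : ∃ j, s = k + j := ⟨s - k, by omega⟩
  have hj : 1 ≤ j := by omega
  have hj2 : k + j - k - 1 = j - 1 := by omega
  have hj3 : (2 : ℝ) ^ (j - 1) = 2 ^ j / 2 := by
    obtain ⟨i, rfl⟩ : ∃ i, j = i + 1 := ⟨j - 1, by omega⟩
    rw [Nat.add_sub_cancel, pow_succ]
    ring
  rw [hj2, hj3]
  have h1 := Pool.Agent.K7.H74.AF.rich_ae (k := k) (j := j) (by omega) hj Pool.Agent.K7.H74.AF.hT Pool.Agent.K7.H74.AF.hAe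
  change ∀ᵐ ξ ∂(Pool.Agent.K7.H74.AF.cube (k + j)), _
  filter_upwards [h1] with ξ hξ ε hε δ hδ
  obtain ⟨C, hC0, hC⟩ := hξ ε hε δ hδ
  refine ⟨C, hC0, fun N hN => le_trans (le_of_eq ?_) (hC N hN)⟩
  congr 2
  unfold Pool.Agent.K7.H74.AF.Rich
  simp only [expected_eq (by omega : 1 ≤ k) (by omega : 1 ≤ k + j)]
  rfl

/-- `exceptions` is at most the sum of the two one-sided numbers -/
theorem exceptions_le {k s : ℕ} (ξ : Fin s → ℝ) (ε : ℝ) (N : ℕ) :
    (exceptions k ξ ε N : ℝ) ≤
      (Nat.card {n : ℕ // n ≤ N ∧ (representations k ξ n : ℝ) < (1 - ε) * expected k s n} : ℝ) +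
      (Nat.card {n : ℕ // n ≤ N ∧ (1 + ε) * expected k s n < (representations k ξ n : ℝ)} : ℝ) := by
  classical
  have key : ∀ P : ℕ → Prop, Nat.card {n : ℕ // n ≤ N ∧ P n} = ((Finset.range (N + 1)).filter P).card := by
    intro P
    apply Nat.subtype_card
    intro n
    rw [Finset.mem_filter, Finset.mem_range, Nat.lt_succ_iff]
  unfold exceptions
  rw [key, key, key]
  have hsub : ((Finset.range (N + 1)).filter fun n => ε * expected k s n < |(representations k ξ n : ℝ) - expected k s n|) ⊆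
      ((Finset.range (N + 1)).filter fun n => (representations k ξ n : ℝ) < (1 - ε) * expected k s n) ∪
      ((Finset.range (N + 1)).filter fun n => (1 + ε) * expected k s n < (representations k ξ n : ℝ)) := by
    intro n hn
    rw [Finset.mem_filter] at hn
    rw [Finset.mem_union, Finset.mem_filter, Finset.mem_filter]
    rcases lt_abs.1 hn.2 with h | h
    · right; exact ⟨hn.1, by linarith⟩
    · left; exact ⟨hn.1, by linarith⟩
  exact_mod_cast (Finset.card_le_card hsub).trans (Finset.card_union_le _ _)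

/-- **The asymptotic formula for sums of more than `k` shifted `k`-th powers, for almost all shifts.** Let `k ≥ 3` and
`s ≥ k + 1`, and let `E (n) = Γ (1 + 1 / k) ^ s / Γ (s / k) n ^ (s / k - 1)` be the expected number of representations
of `n` as the integral part of a sum `(x_1 + ξ_1) ^ k + ... + (x_s + ξ_s) ^ k`, `x` in `ℕ ^ s`. For almost all `ξ` in
`[0, 1] ^ s`: (1) for all `ε, δ > 0` there is `C` such that for all `N ≥ 1` at most
`C N ^ max (0, 1 - 2 ^ (s - k - 1) / k + δ)` natural numbers `n ≤ N` have a number of representations which differs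
from `E (n)` by more than `ε E (n)`; (2) if `2 ^ (s - k - 1) > k`, that is, `s ≥ k + [log_2 k] + 2`, then the number of
representations of `n` divided by `E (n)` tends to `1`. -/
theorem result (k s : ℕ) (hk : 3 ≤ k) (hs : k + 1 ≤ s) :
    ∀ᵐ ξ : Fin s → ℝ, (∀ i, ξ i ∈ Set.Icc (0 : ℝ) 1) →
      (∀ ε : ℝ, 0 < ε → ∀ δ : ℝ, 0 < δ → ∃ C : ℝ, ∀ N : ℕ, 1 ≤ N →
        (exceptions k ξ ε N : ℝ) ≤ C * (N : ℝ) ^ max 0 (1 - 2 ^ (s - k - 1) / (k : ℝ) + δ)) ∧
      (k < 2 ^ (s - k - 1) →
        Tendsto (fun n : ℕ => (representations k ξ n : ℝ) / expected k s n) atTop (nhds 1)) := by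
  classical
  have h0 := (lower hk hs).and (upper hk hs)
  have h2 : Pool.Agent.K7.H74.WS.cube s = volume.restrict (Set.univ.pi fun _ : Fin s => Set.Ioc (0 : ℝ) 1) := by
    unfold Pool.Agent.K7.H74.WS.cube
    rw [volume_pi, Measure.restrict_pi_pi]
  rw [h2, ae_restrict_iff' (MeasurableSet.univ_pi fun _ => measurableSet_Ioc)] at h0
  have h3 : ∀ᵐ ξ : Fin s → ℝ, ∀ i, ξ i ≠ 0 := by
    rw [ae_all_iff]
    intro i
    have h4 : ∀ᵐ x : ℝ, x ≠ 0 := compl_mem_ae_iff.2 (measure_singleton (0 : ℝ))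
    rw [volume_pi]
    exact (Measure.quasiMeasurePreserving_eval (fun _ : Fin s => (volume : Measure ℝ)) i).ae h4
  have hk0 : (0 : ℝ) < k := by exact_mod_cast (by omega : 0 < k)
  have hs0 : (0 : ℝ) < s := by exact_mod_cast (by omega : 0 < s)
  filter_upwards [h0, h3] with ξ h4 h5 h6
  have h7 := h4 (fun i _ => ⟨lt_of_le_of_ne (h6 i).1 (h5 i).symm, (h6 i).2⟩)
  have part1 : ∀ ε : ℝ, 0 < ε → ∀ δ : ℝ, 0 < δ → ∃ C : ℝ, ∀ N : ℕ, 1 ≤ N →
        (exceptions k ξ ε N : ℝ) ≤ C * (N : ℝ) ^ max 0 (1 - 2 ^ (s - k - 1) / (k : ℝ) + δ) := by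
    intro ε hε δ hδ
    obtain ⟨C₁, hC₁0, hC₁⟩ := h7.1 ε hε δ hδ
    obtain ⟨C₂, hC₂0, hC₂⟩ := h7.2 ε hε δ hδ
    refine ⟨C₁ + C₂, fun N hN => (exceptions_le ξ ε N).trans ?_⟩
    rw [add_mul]
    exact add_le_add (hC₁ N hN) (hC₂ N hN)
  refine ⟨part1, fun hlog => ?_⟩
  -- the asymptotic formula
  have hlog' : (k : ℝ) < 2 ^ (s - k - 1) := by exact_mod_cast hlog
  set δ : ℝ := (2 ^ (s - k - 1) / (k : ℝ) - 1) with hδ
  have hδ0 : 0 < δ := by
    rw [hδ, sub_pos, one_lt_div hk0]
    exact hlog'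
  rw [Metric.tendsto_atTop]
  intro ε hε
  obtain ⟨C, hC⟩ := part1 (ε / 2) (by positivity) δ hδ0
  have hexp : max 0 (1 - 2 ^ (s - k - 1) / (k : ℝ) + δ) = 0 := by
    rw [hδ]
    apply max_eq_left
    linarith
  rw [hexp] at hC
  -- the set of exceptional numbers is finite
  set A : Set ℕ := {n | ε / 2 * expected k s n < |(representations k ξ n : ℝ) - expected k s n|} with hA
  have hfin : A.Finite := by
    by_contra hinf
    obtain ⟨T, hT1, hT2⟩ := Set.Infinite.exists_subset_card_eq hinf (⌈max C 0⌉₊ + 1)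
    set N : ℕ := T.sup id + 1 with hN
    have h8 := hC N (by omega)
    rw [Real.rpow_zero, mul_one] at h8
    have h9 : T.card ≤ exceptions k ξ (ε / 2) N := by
      unfold exceptions
      have e1 : Nat.card {n : ℕ // n ∈ T} = T.card := by
        rw [Nat.card_eq_fintype_card, Fintype.card_coe]
      rw [← e1]
      refine Nat.card_mono ((Set.finite_Iic N).subset fun n hn => hn.1) ?_
      intro n hn
      exact ⟨(Finset.le_sup (f := id) hn).trans (Nat.le_succ _), hT1 hn⟩
    have h10 : ((⌈max C 0⌉₊ + 1 : ℕ) : ℝ) ≤ C := by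
      rw [← hT2]
      exact le_trans (by exact_mod_cast h9) h8
    push_cast at h10
    have h11 := Nat.le_ceil (max C 0)
    have h12 := le_max_left C 0
    linarith
  obtain ⟨M, hM⟩ := hfin.bddAbove
  refine ⟨M + 2, fun n hn => ?_⟩
  have hnA : n ∉ A := fun h => by
    have := hM h
    omega
  have h8 : |(representations k ξ n : ℝ) - expected k s n| ≤ ε / 2 * expected k s n := not_lt.1 hnA
  have hn1 : (0 : ℝ) < n := by exact_mod_cast (by omega : 0 < n)
  have hE : 0 < expected k s n := by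
    unfold expected
    have hG1 : 0 < Real.Gamma (1 + 1 / (k : ℝ)) := Real.Gamma_pos_of_pos (by positivity)
    have hG2 : 0 < Real.Gamma ((s : ℝ) / k) := Real.Gamma_pos_of_pos (by positivity)
    positivity
  rw [Real.dist_eq]
  have h9 : (representations k ξ n : ℝ) / expected k s n - 1 =
      ((representations k ξ n : ℝ) - expected k s n) / expected k s n := by
    field_simp
  rw [h9, abs_div, abs_of_pos hE, div_lt_iff₀ hE]
  have h10 : ε / 2 * expected k s n < ε * expected k s n := by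
    apply mul_lt_mul_of_pos_right _ hE
    linarith
  linarith

end Pool.Agent.Results.MP_570bef_nt.SlimExceptionalSets
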